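import Pool.Agent.MP_72b677_al.H37.Model

/-!
A Gorenstein quotient of the model: the quotient by the radical of a linear form.
-/

namespace Pool.Agent.MP_72b677_al.H37

open Module MvPolynomial Pool.Agent.MP_72b677_al.H44

section Rad

variable {k A : Type} [Field k] [CommRing A] [Algebra k A]

/-- The radical of the pairing given by a linear form. -/
def rad (φ : A →ₗ[k] k) : Ideal A where
  carrier := {f | ∀ h, φ (f * h) = 0}
  zero_mem' h := by simp
  add_mem' {f g} hf hg h := by rw [add_mul, map_add, hf h, hg h, add_zero]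
  smul_mem' a f hf h := by
    rw [smul_eq_mul, mul_comm a, mul_assoc]
    exact hf _

theorem exists_form (φ : A →ₗ[k] k) : ∃ ψ : (A ⧸ rad φ) →ₗ[k] k,
    (∀ f, ψ (Ideal.Quotient.mk _ f) = φ f) ∧ ∀ b, (∀ c, ψ (b * c) = 0) → b = 0 := by
  obtain ⟨s, hs⟩ := (Ideal.Quotient.mkₐ k (rad φ)).toLinearMap.exists_rightInverse_of_surjective
    (LinearMap.range_eq_top.2 Ideal.Quotient.mk_surjective)
  have h1 : ∀ f, φ (s (Ideal.Quotient.mk _ f)) = φ f := fun f => by
    have h2 : s (Ideal.Quotient.mk _ f) - f ∈ rad φ :=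
      Ideal.Quotient.eq.1 (LinearMap.congr_fun hs (Ideal.Quotient.mk _ f))
    have h3 := h2 1
    rwa [mul_one, map_sub, sub_eq_zero] at h3
  refine ⟨φ ∘ₗ s, h1, fun b hb => ?_⟩
  obtain ⟨f, rfl⟩ := Ideal.Quotient.mk_surjective b
  refine Ideal.Quotient.eq_zero_iff_mem.2 fun h => ?_
  rw [← h1, map_mul]
  exact hb _

end Rad

/-- Two matrices with three rows, one above the other. -/
def two (α β : Fin 3 → Fin 19 → ZMod 2) : Fin 6 → Fin 19 → ZMod 2 :=
  ![α 0, α 1, α 2, β 0, β 1, β 2]

theorem two_inj {α β α' β' : Fin 3 → Fin 19 → ZMod 2} (h : two α β = two α' β') :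
    α = α' ∧ β = β' := by
  constructor <;> funext i <;> fin_cases i
  exacts [congrFun h 0, congrFun h 1, congrFun h 2, congrFun h 3, congrFun h 4, congrFun h 5]

/-- The first three of the six vectors. -/
def lo (α : Fin 3 → Fin 19 → ZMod 2) : List Vec :=
  [(Pi.single 3 1, α 0), (Pi.single 4 1, α 1), (Pi.single 5 1, α 2)]

/-- The last three of the six vectors. -/
def hi (β : Fin 3 → Fin 19 → ZMod 2) : List Vec :=
  [(Pi.single 6 1, β 0), (Pi.single 7 1, β 1), (Pi.single 8 1, β 2)]

theorem lst_two (α β : Fin 3 → Fin 19 → ZMod 2) : lst (two α β) = lo α ++ hi β := rfl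

variable (k : Type) [Field k]

/-- A sum of coefficients. -/
noncomputable def phiS (s : Finset (Fin 3 → Fin 19 → ZMod 2)) : MvPolynomial Vec k →ₗ[k] k where
  toFun f := ∑ γ ∈ s, (ev k (f * (X (bas 0) + X (bas 1) * X (bas 2)))).coeff (top (two γ γ))
  map_add' f g := by simp [add_mul, Finset.sum_add_distrib]
  map_smul' c f := by simp [Finset.mul_sum]

open Classical in
theorem exists_phi : ∃ φ : MvPolynomial Vec k →ₗ[k] k,
    (∀ f ∈ Ideal.span (rels k), φ f = 0) ∧ ∀ α β : Fin 3 → Fin 19 → ZMod 2,
      φ (X (bas 0) * ((lo α).map X).prod * ((hi β).map X).prod) = if α = β then 1 else 0 := by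
  obtain ⟨s, hs⟩ : ∃ s : Finset (Fin 3 → Fin 19 → ZMod 2), ∀ γ, γ ∈ s := ⟨_, Finset.mem_univ⟩
  refine ⟨phiS k s, fun f hf => Finset.sum_eq_zero fun _ _ => coeff_top_eq_zero k (ev_mem k hf) _,
    fun α β => ?_⟩
  rw [mul_assoc, ← List.prod_append, ← List.map_append, ← lst_two]
  change ∑ γ ∈ s, _ = _
  simp only [coeff_top]
  split_ifs with h
  · subst h
    rw [Finset.sum_eq_single α (fun γ _ hγ => if_neg fun e => hγ (two_inj e).1.symm)
      (fun h => absurd (hs α) h), if_pos rfl]
  · exact Finset.sum_eq_zero fun γ _ => if_neg fun e => h ((two_inj e).1.trans (two_inj e).2.symm)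

/-- The linear form. -/
noncomputable def phi : MvPolynomial Vec k →ₗ[k] k := (exists_phi k).choose

theorem rels_le : Ideal.span (rels k) ≤ rad (phi k) := fun _ hf h =>
  (exists_phi k).choose_spec.1 _ (Ideal.mul_mem_right h _ hf)

open Classical in
theorem phi_pair (α β : Fin 3 → Fin 19 → ZMod 2) :
    phi k (X (bas 0) * ((lo α).map X).prod * ((hi β).map X).prod) = if α = β then 1 else 0 :=
  (exists_phi k).choose_spec.2 α β

/-- The Gorenstein algebra. -/
abbrev Gor : Type := MvPolynomial Vec k ⧸ rad (phi k)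

/-- The projection from the model. -/
noncomputable def pr : Alg k →ₐ[k] Gor k := Ideal.Quotient.factorₐ k (rels_le k)

theorem pr_surj : Function.Surjective (pr k) := fun b => by
  obtain ⟨f, rfl⟩ := Ideal.Quotient.mk_surjective b
  exact ⟨Ideal.Quotient.mk _ f, rfl⟩

/-- The generators. -/
noncomputable def yy (v : Vec) : Gor k := pr k (gen k v)

theorem yy_mul (a b : Vec) : yy k a * yy k b = yy k a * yy k (a + b) := by
  simp only [yy, ← map_mul, gen_mul k a b]

theorem yy_sq (a : Vec) : yy k a ^ 2 = 0 := by rw [yy, ← map_pow, gen_sq, map_zero]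

theorem yy_bas : yy k (bas 0) = yy k (bas 1) * yy k (bas 2) := by
  simp only [yy, ← map_mul, gen_bas]

theorem mk_prod (l : List Vec) :
    Ideal.Quotient.mk (rad (phi k)) (l.map X).prod = (l.map (yy k)).prod := by
  rw [map_list_prod, List.map_map]
  rfl

theorem span_yy :
    Submodule.span k (Set.range fun l : List Vec => (l.map (yy k)).prod) = ⊤ := by
  have h := congrArg (Submodule.map (pr k).toLinearMap) (span_gen k)
  rw [Submodule.map_span, Submodule.map_top, LinearMap.range_eq_top.2 (pr_surj k),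
    ← Set.range_comp] at h
  rw [← h]
  congr 2
  funext l
  simp only [Function.comp, AlgHom.toLinearMap_apply, map_list_prod, List.map_map]
  rfl

theorem indep_yy : LinearIndependent k
    fun α : Fin 3 → Fin 19 → ZMod 2 => yy k (bas 0) * ((lo α).map (yy k)).prod := by
  classical
  obtain ⟨ψ, hψ, -⟩ := exists_form (phi k)
  rw [linearIndependent_iff']
  intro s c hc β hβ
  have h1 := congrArg (fun b => ψ (b * ((hi β).map (yy k)).prod)) hc
  have h2 : ∀ α, ψ (yy k (bas 0) * ((lo α).map (yy k)).prod * ((hi β).map (yy k)).prod) =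
      if α = β then 1 else 0 := fun α => by
    rw [← mk_prod, ← mk_prod]
    convert (hψ _).trans (phi_pair k α β)
    rw [map_mul, map_mul]
    rfl
  simp only [Finset.sum_mul, smul_mul_assoc, map_sum, map_smul, h2, zero_mul, map_zero] at h1
  simpa [hβ] using h1

theorem core [CharZero k] :
    ∃ (A : Type) (_ : CommRing A) (_ : Algebra k A) (_ : IsLocalRing A) (_ : Module.Finite k A),
      Function.Surjective (algebraMap k (IsLocalRing.ResidueField A)) ∧
      Module.length A (Submodule.torsionBySet A A (IsLocalRing.maximalIdeal A)) = 1 ∧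
      Module.length A (Derivation k A A) + 1 < Module.length A A ∧
      ∃ a b : A, a ^ 2 = 0 ∧ b ^ 2 = 0 ∧ a * b ≠ 0 := by
  obtain ⟨ψ, -, hψ⟩ := exists_form (phi k)
  have hdec : ∀ a : Gor k, ∃ (c : k) (n : Gor k), IsNilpotent n ∧ a = algebraMap k _ c + n := by
    intro a
    have ha : a ∈ Submodule.span k (Set.range fun l : List Vec => (l.map (yy k)).prod) := by
      rw [span_yy]; trivial
    induction ha using Submodule.span_induction with
    | mem a ha =>
      obtain ⟨l, rfl⟩ := ha
      rcases l with _ | ⟨v, l⟩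
      · exact ⟨1, 0, IsNilpotent.zero, by simp⟩
      · refine ⟨0, _, ?_, by rw [map_zero, zero_add]⟩
        exact (Commute.all _ _).isNilpotent_mul_right ⟨2, yy_sq k v⟩
    | zero => exact ⟨0, 0, IsNilpotent.zero, by simp⟩
    | add a b _ _ ha hb =>
      obtain ⟨c, n, hn, rfl⟩ := ha
      obtain ⟨c', n', hn', rfl⟩ := hb
      exact ⟨c + c', n + n', (Commute.all _ _).isNilpotent_add hn hn', by rw [map_add]; ring⟩
    | smul t a _ ha =>
      obtain ⟨c, n, hn, rfl⟩ := ha
      exact ⟨t * c, t • n, hn.smul t, by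
        rw [smul_add, map_mul]; exact congrArg (· + t • n) (Algebra.smul_def (A := Gor k) t _)⟩
  have hne := (indep_yy k).ne_zero 0
  have hnt : Nontrivial (Gor k) := nontrivial_of_ne _ _ hne
  have hloc : IsLocalRing (Gor k) := by
    refine IsLocalRing.of_isUnit_or_isUnit_one_sub_self fun a => ?_
    obtain ⟨c, n, hn, rfl⟩ := hdec a
    by_cases hc : c = 0
    · right
      rw [hc, map_zero, zero_add]
      exact hn.isUnit_one_sub
    · left
      exact hn.isUnit_add_left_of_commute ((IsUnit.mk0 c hc).map _) (Commute.all _ _)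
  have hint : Algebra.IsIntegral k (Gor k) := ⟨fun a => by
    obtain ⟨c, n, ⟨m, hm⟩, rfl⟩ := hdec a
    refine isIntegral_algebraMap.add ⟨Polynomial.X ^ m, Polynomial.monic_X_pow m, ?_⟩
    simp [hm]⟩
  have hfin : Module.Finite k (Gor k) := Algebra.IsIntegral.finite
  have hmax : ∀ n : Gor k, IsNilpotent n → n ∈ IsLocalRing.maximalIdeal (Gor k) := fun n hn hu =>
    IsUnit.not_isNilpotent hu hn
  have hart : IsArtinianRing (Gor k) := IsArtinianRing.of_finite k _
  let S := Submodule.torsionBySet (Gor k) (Gor k) (IsLocalRing.maximalIdeal (Gor k))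
  have hS1 : Module.length (Gor k) S ≤ 1 := by
    have h1 : Function.Injective (ψ ∘ₗ (S.restrictScalars k).subtype) := by
      rw [injective_iff_map_eq_zero]
      intro f hf
      refine Subtype.ext (hψ _ fun b => ?_)
      obtain ⟨c, n, hn, rfl⟩ := hdec b
      have h2 : ψ f.1 = 0 := hf
      have h3 : n * f.1 = 0 := (Submodule.mem_torsionBySet_iff _ _).1 f.2 ⟨n, hmax n hn⟩
      rw [mul_add, mul_comm _ n, h3, add_zero, mul_comm, ← Algebra.smul_def, map_smul, h2,
        smul_zero]
    exact (S.length_le_length_restrictScalars k).trans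
      ((Module.length_le_of_injective _ h1).trans (Module.length_eq_one k k).le)
  have hS0 : Nontrivial S := by
    obtain ⟨I, hI, -⟩ := (eq_bot_or_exists_atom_le (⊤ : Submodule (Gor k) (Gor k))).resolve_left
      top_ne_bot
    have h1 := isSimpleModule_iff_isAtom.2 hI
    have h2 := IsLocalRing.eq_maximalIdeal (IsSimpleModule.annihilator_isMaximal (R := Gor k) (M := I))
    rw [Submodule.nontrivial_iff_ne_bot]
    refine ne_bot_of_le_ne_bot hI.1 fun x hx => (Submodule.mem_torsionBySet_iff _ _).2 fun a => ?_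
    have h3 : a.1 ∈ Module.annihilator (Gor k) I := by rw [h2]; exact a.2
    exact congrArg Subtype.val (Module.mem_annihilator.1 h3 ⟨x, hx⟩)
  have hsurj : Function.Surjective (algebraMap k (IsLocalRing.ResidueField (Gor k))) := fun x => by
    obtain ⟨a, rfl⟩ := IsLocalRing.residue_surjective x
    obtain ⟨c, n, hn, rfl⟩ := hdec a
    refine ⟨c, ?_⟩
    rw [map_add, (IsLocalRing.residue_eq_zero_iff n).2 (hmax n hn), add_zero]
    rfl
  refine ⟨Gor k, inferInstance, inferInstance, hloc, hfin, hsurj,
    le_antisymm hS1 (Order.one_le_iff_pos.2 Module.length_pos), ?_, yy k (bas 1), yy k (bas 2),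
    yy_sq k _, yy_sq k _, fun h => hne (by rw [yy_bas, h, zero_mul])⟩
  let K := Submodule.span k (Set.range
    fun α : Fin 3 → Fin 19 → ZMod 2 => yy k (bas 0) * ((lo α).map (yy k)).prod)
  have hK : finrank k K = 2 ^ 57 := by
    rw [finrank_span_eq_card (indep_yy k)]
    simp only [Fintype.card_fun, ZMod.card, Fintype.card_fin]
    norm_num
  obtain ⟨hD, h1⟩ := finrank_der_le (yy k) (yy_mul k) Vec.add_self (span_yy k) K fun D a ha => by
    induction ha using Submodule.span_induction with
    | mem a ha =>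
      obtain ⟨T, rfl⟩ := ha
      exact deriv_eq_zero (yy k) (yy_mul k) Vec.add_self D (yy_bas k) _ _ _
    | zero => simp
    | add a b _ _ ha hb => rw [map_add, ha, hb, add_zero]
    | smul c a _ ha => rw [Derivation.map_smul, ha, smul_zero]
  have hV : Fintype.card Vec = 2 ^ 28 := by
    simp only [Fintype.card_prod, Fintype.card_fun, ZMod.card, Fintype.card_fin]
    norm_num
  let j : Gor k →ₗ[Gor k] Du k (Gor k) := LinearMap.toSpanSingleton _ _ (Du.val.symm ψ)
  have hj : Function.Injective (j.compDer (R := k)) := by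
    rw [injective_iff_map_eq_zero]
    intro D hD
    ext a
    refine hψ _ fun c => ?_
    exact congrArg (fun E : Derivation k (Gor k) (Du k (Gor k)) => Du.val (E a) c) hD
  refine lt_of_le_of_lt (add_le_add_left (Module.length_le_of_injective _ hj) 1) ?_
  have e1 := IsLocalRing.length_restrictScalars k (Gor k) (Derivation k (Gor k) (Du k (Gor k)))
  have e2 := IsLocalRing.length_restrictScalars k (Gor k) (Gor k)
  have e3 : Module.length (IsLocalRing.ResidueField k) (IsLocalRing.ResidueField (Gor k)) = 1 := by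
    refine le_antisymm ((Module.length_le_of_surjective (Algebra.linearMap _ _) fun x => ?_).trans
      (Module.length_eq_one _ _).le) (Order.one_le_iff_pos.2 Module.length_pos)
    obtain ⟨c, rfl⟩ := hsurj x
    exact ⟨algebraMap k _ c, rfl⟩
  rw [Module.length_eq_finrank, e3, mul_one] at e1 e2
  rw [← e1, ← e2, ← Nat.cast_one, ← Nat.cast_add, Nat.cast_lt]
  rw [hK, hV] at h1
  omega

end Pool.Agent.MP_72b677_al.H37
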