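import Pool.Agent.MP_72b677_al.H44.Count

/-!
The graded Moebius algebra of the subspace lattice of `F_2^28`, with a point identified with a
skew line (the model of the file `H44/Model`, with a larger second factor).
-/

namespace Pool.Agent.MP_72b677_al.H37

open Module MvPolynomial

/-- The vector space `F_2^9 × F_2^19`. -/
abbrev Vec : Type := (Fin 9 → ZMod 2) × (Fin 19 → ZMod 2)

theorem Vec.add_self (a : Vec) : a + a = 0 := by
  rw [← two_smul (ZMod 2), show (2 : ZMod 2) = 0 from rfl, zero_smul]

/-- Pairs of a subspace and a degree that is at least its dimension. -/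
noncomputable def Gam : AddSubmonoid (Submodule (ZMod 2) Vec × ℕ) where
  carrier := {p | finrank (ZMod 2) p.1 ≤ p.2}
  zero_mem' := by simp
  add_mem' {p q} hp hq :=
    (Submodule.finrank_add_le_finrank_add_finrank p.1 q.1).trans (add_le_add hp hq)

/-- The line spanned by a vector, in degree one. -/
noncomputable def pt (v : Vec) : Gam :=
  ⟨(Submodule.span (ZMod 2) {v}, 1), (finrank_span_le_card ({v} : Set Vec)).trans (by simp)⟩

theorem pt_add (a b : Vec) : pt a + pt b = pt a + pt (a + b) := by
  refine Subtype.ext (Prod.ext ?_ rfl)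
  change Submodule.span _ {a} ⊔ Submodule.span _ {b} = Submodule.span _ {a} ⊔ Submodule.span _ {a + b}
  have key : ∀ b : Vec, Submodule.span (ZMod 2) {a} ⊔ Submodule.span _ {a + b} ≤
      Submodule.span _ {a} ⊔ Submodule.span _ {b} := fun b =>
    sup_le le_sup_left ((Submodule.span_singleton_le_iff_mem _ _).2 (Submodule.add_mem_sup
      (Submodule.mem_span_singleton_self _) (Submodule.mem_span_singleton_self _)))
  refine le_antisymm ?_ (key b)
  simpa only [← add_assoc, Vec.add_self, zero_add] using key (a + b)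

theorem sum_pt {ι : Type} (s : Finset ι) (f : ι → Vec) :
    (∑ i ∈ s, pt (f i)).1 = (Submodule.span (ZMod 2) (f '' s), s.card) := by
  classical
  induction s using Finset.induction_on with
  | empty => simp [show (0 : Submodule (ZMod 2) Vec × ℕ) = (⊥, 0) from rfl]
  | insert i s hi ih =>
    rw [Finset.sum_insert hi, AddSubmonoid.coe_add, ih, Finset.card_insert_of_notMem hi,
      Finset.coe_insert, Set.image_insert_eq, Submodule.span_insert, add_comm s.card]
    rfl

/-- A matrix extended by three zero rows. -/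
def rows (T : Fin 6 → Fin 19 → ZMod 2) : Fin 9 → Fin 19 → ZMod 2 :=
  Fin.cons 0 (Fin.cons 0 (Fin.cons 0 T))

/-- The basis of the graph of the linear map given by `rows T`. -/
def vec (T : Fin 6 → Fin 19 → ZMod 2) (i : Fin 9) : Vec := (Pi.single i 1, rows T i)

/-- The graph, in degree nine. -/
noncomputable def top (T : Fin 6 → Fin 19 → ZMod 2) : Gam := ∑ i, pt (vec T i)

theorem top_val (T : Fin 6 → Fin 19 → ZMod 2) :
    (top T).1 = (Submodule.span (ZMod 2) (Set.range (vec T)), 9) := by
  rw [top, sum_pt]; simp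

theorem top_injective : Function.Injective top := by
  intro T T' h
  have h1 : Submodule.span (ZMod 2) (Set.range (vec T)) =
      Submodule.span (ZMod 2) (Set.range (vec T')) := by
    simpa only [top_val] using congrArg (fun t : Gam => t.1.1) h
  have h2 : Submodule.span (ZMod 2) (Set.range (vec T)) ≤
      (Fintype.linearCombination (ZMod 2) (rows T)).graph := by
    rw [Submodule.span_le]
    rintro _ ⟨i, rfl⟩
    simp [vec]
  funext j
  have h4 : vec T' j.succ.succ.succ ∈ Submodule.span (ZMod 2) (Set.range (vec T')) :=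
    Submodule.subset_span ⟨_, rfl⟩
  have h3 := h2 (h1 ▸ h4)
  simpa [vec, rows, eq_comm] using h3

theorem add_pt_zero_ne (T : Fin 6 → Fin 19 → ZMod 2) (d : Gam) : d + pt 0 ≠ top T := by
  intro h
  have h1 := congrArg (fun t : Gam => t.1) h
  simp only [top_val, AddSubmonoid.coe_add, pt, Prod.ext_iff, Prod.fst_add, Prod.snd_add,
    Submodule.span_zero_singleton, Submodule.add_eq_sup, sup_bot_eq] at h1
  have h2 : finrank (ZMod 2) d.1.1 ≤ d.1.2 := d.2
  have h3 : LinearIndependent (ZMod 2) (vec T) := by
    refine LinearIndependent.of_comp (LinearMap.fst (ZMod 2) _ _) ?_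
    convert (Pi.basisFun (ZMod 2) (Fin 9)).linearIndependent
    ext i j
    simp [vec]
  have h4 := finrank_span_eq_card h3
  rw [← h1.1, Fintype.card_fin] at h4
  omega

variable (k : Type) [Field k]

/-- The evaluation in the monoid algebra. -/
noncomputable def ev : MvPolynomial Vec k →ₐ[k] AddMonoidAlgebra k Gam :=
  aeval fun v => AddMonoidAlgebra.single (pt v) 1

/-- The three distinguished vectors. -/
def bas (i : Fin 9) : Vec := (Pi.single i 1, 0)

/-- The defining relations. -/
def rels : Set (MvPolynomial Vec k) :=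
  {X 0, X (bas 0) - X (bas 1) * X (bas 2)} ∪
    Set.range fun p : Vec × Vec => X p.1 * X p.2 - X p.1 * X (p.1 + p.2)

/-- The algebra. -/
abbrev Alg : Type := MvPolynomial Vec k ⧸ Ideal.span (rels k)

/-- The generators of the algebra. -/
noncomputable def gen (v : Vec) : Alg k := Ideal.Quotient.mk _ (X v)

theorem gen_zero : gen k 0 = 0 :=
  Ideal.Quotient.eq_zero_iff_mem.2 (Ideal.subset_span (Or.inl (Or.inl rfl)))

theorem gen_bas : gen k (bas 0) = gen k (bas 1) * gen k (bas 2) :=
  Ideal.Quotient.eq.2 (Ideal.subset_span (Or.inl (Or.inr rfl)))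

theorem gen_mul (a b : Vec) : gen k a * gen k b = gen k a * gen k (a + b) :=
  Ideal.Quotient.eq.2 (Ideal.subset_span (Or.inr ⟨(a, b), rfl⟩))

theorem gen_sq (a : Vec) : gen k a ^ 2 = 0 := by
  rw [sq, gen_mul, Vec.add_self, gen_zero, mul_zero]

theorem ev_rel (a b : Vec) : ev k (X a * X b) = ev k (X a * X (a + b)) := by
  simp only [ev, map_mul, aeval_X, AddMonoidAlgebra.single_mul_single, pt_add a b]

theorem ev_mem {f : MvPolynomial Vec k} (hf : f ∈ Ideal.span (rels k)) :
    ev k (f * (X (bas 0) + X (bas 1) * X (bas 2))) ∈ Ideal.span {ev k (X 0)} := by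
  have hsq : ∀ a : Vec, ev k (X a * X a) = ev k (X a) * ev k (X 0) := fun a => by
    rw [ev_rel, Vec.add_self, map_mul]
  induction hf using Submodule.span_induction with
  | mem f hf =>
    rcases hf with (rfl | rfl) | ⟨p, rfl⟩
    · rw [map_mul]
      exact Ideal.mul_mem_right _ _ (Ideal.mem_span_singleton_self _)
    · have : (X (bas 0) - X (bas 1) * X (bas 2) : MvPolynomial Vec k) *
          (X (bas 0) + X (bas 1) * X (bas 2)) =
          X (bas 0) * X (bas 0) - X (bas 1) * X (bas 1) * (X (bas 2) * X (bas 2)) := by ring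
      rw [this, map_sub, map_mul _ (X (bas 1) * X (bas 1)), hsq, hsq (bas 2), ← mul_assoc]
      exact sub_mem (Ideal.mul_mem_left _ _ (Ideal.mem_span_singleton_self _))
        (Ideal.mul_mem_left _ _ (Ideal.mem_span_singleton_self _))
    · simp only [map_mul _ (_ - _), map_sub, ev_rel k p.1 p.2, sub_self, zero_mul, zero_mem]
  | zero => simp
  | add f g _ _ hf hg => rw [add_mul, map_add]; exact add_mem hf hg
  | smul a f _ hf => rw [smul_eq_mul, mul_assoc, map_mul]; exact Ideal.mul_mem_left _ _ hf

theorem coeff_top_eq_zero {r : AddMonoidAlgebra k Gam} (hr : r ∈ Ideal.span {ev k (X 0)})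
    (T : Fin 6 → Fin 19 → ZMod 2) : r.coeff (top T) = 0 := by
  obtain ⟨s, rfl⟩ := Ideal.mem_span_singleton'.1 hr
  rw [ev, aeval_X]
  exact AddMonoidAlgebra.coeff_mul_single_of_forall_add_ne _ _ (add_pt_zero_ne T)

/-- The list of the six basis vectors that depend on the matrix. -/
def lst (T : Fin 6 → Fin 19 → ZMod 2) : List Vec :=
  [vec T 3, vec T 4, vec T 5, vec T 6, vec T 7, vec T 8]

theorem coeff_top (T T' : Fin 6 → Fin 19 → ZMod 2) :
    (ev k (X (bas 0) * ((lst T').map X).prod * (X (bas 0) + X (bas 1) * X (bas 2)))).coeff (top T) =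
      if T' = T then 1 else 0 := by
  classical
  have h1 : (X (bas 0) * ((lst T').map X).prod * (X (bas 0) + X (bas 1) * X (bas 2)) :
      MvPolynomial Vec k) = X (bas 0) * X (bas 0) * ((lst T').map X).prod + ∏ i, X (vec T' i) := by
    have e0 : vec T' 0 = bas 0 := rfl
    have e1 : vec T' 1 = bas 1 := rfl
    have e2 : vec T' 2 = bas 2 := rfl
    have h9 : ∀ f : Fin 9 → MvPolynomial Vec k, ∏ i, f i =
        f 0 * f 1 * f 2 * f 3 * f 4 * f 5 * f 6 * f 7 * f 8 := fun f => by
      rw [Fin.prod_univ_castSucc, Fin.prod_univ_eight]; rfl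
    rw [h9, e0, e1, e2]
    simp only [lst, List.map_cons, List.map_nil, List.prod_cons, List.prod_nil]
    ring
  have h2 : ev k (∏ i, X (vec T' i)) = AddMonoidAlgebra.single (top T') 1 := by
    rw [map_prod, top]
    simp only [ev, aeval_X]
    rw [AddMonoidAlgebra.prod_single]
    simp
  have h3 : ev k (X (bas 0) * X (bas 0) * ((lst T').map X).prod) ∈ Ideal.span {ev k (X 0)} := by
    rw [map_mul, ev_rel, Vec.add_self, map_mul]
    exact Ideal.mul_mem_right _ _ (Ideal.mul_mem_left _ _ (Ideal.mem_span_singleton_self _))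
  rw [h1, map_add, AddMonoidAlgebra.coeff_add, Finsupp.add_apply, coeff_top_eq_zero k h3, zero_add,
    h2, AddMonoidAlgebra.coeff_single, Finsupp.single_apply]
  simp only [top_injective.eq_iff]

theorem span_gen :
    Submodule.span k (Set.range fun l : List Vec => (l.map (gen k)).prod) = ⊤ := by
  rw [eq_top_iff]
  rintro a -
  obtain ⟨f, rfl⟩ := Ideal.Quotient.mk_surjective a
  induction f using MvPolynomial.induction_on with
  | C c =>
    have : (Ideal.Quotient.mk (Ideal.span (rels k)) (C c) : Alg k) = c • (1 : Alg k) := by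
      rw [← Algebra.algebraMap_eq_smul_one]; rfl
    rw [this]
    exact Submodule.smul_mem _ _ (Submodule.subset_span ⟨[], rfl⟩)
  | add f g hf hg => rw [map_add]; exact add_mem hf hg
  | mul_X f v hf =>
    rw [map_mul, mul_comm]
    generalize Ideal.Quotient.mk (Ideal.span (rels k)) f = a at hf
    induction hf using Submodule.span_induction with
    | mem a ha =>
      obtain ⟨l, rfl⟩ := ha
      exact Submodule.subset_span ⟨v :: l, rfl⟩
    | zero => simp
    | add a b _ _ ha hb => rw [mul_add]; exact add_mem ha hb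
    | smul c a _ ha => rw [mul_smul_comm]; exact Submodule.smul_mem _ _ ha

end Pool.Agent.MP_72b677_al.H37
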