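import Mathlib

/-!
The lengths of the module of derivations and of the socle are additive.
-/

namespace Pool.Agent.MP_72b677_al.H37

open Module

variable {k A M N : Type} [Field k] [CommRing A] [Algebra k A] [AddCommGroup M] [Module A M]
  [Module k M] [IsScalarTower k A M] [AddCommGroup N] [Module A N] [Module k N]
  [IsScalarTower k A N]

theorem der_prod : length A (Derivation k A (M × N)) =
    length A (Derivation k A M) + length A (Derivation k A N) := by
  rw [← (KaehlerDifferential.linearMapEquivDerivation k A).length_eq,
    ← (KaehlerDifferential.linearMapEquivDerivation k A).length_eq,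
    ← (KaehlerDifferential.linearMapEquivDerivation k A).length_eq,
    ← (LinearMap.prodEquiv A).length_eq, length_prod]

theorem der_pi (n : ℕ) : length A (Derivation k A (Fin n → M)) =
    n * length A (Derivation k A M) := by
  rw [← (KaehlerDifferential.linearMapEquivDerivation k A).length_eq,
    ← (KaehlerDifferential.linearMapEquivDerivation k A).length_eq,
    ← (LinearEquiv.linearMapPi A).length_eq, length_pi_of_fintype]
  simp

omit [Module k M] [IsScalarTower k A M] [Module k N] [IsScalarTower k A N] in
theorem soc_prod (I : Set A) : length A (Submodule.torsionBySet A (M × N) I) =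
    length A (Submodule.torsionBySet A M I) + length A (Submodule.torsionBySet A N I) := by
  rw [← length_prod]
  exact LinearEquiv.length_eq
    { toFun := fun x => (⟨x.1.1, (Submodule.mem_torsionBySet_iff _ _).2 fun a =>
          congrArg Prod.fst ((Submodule.mem_torsionBySet_iff _ _).1 x.2 a)⟩,
        ⟨x.1.2, (Submodule.mem_torsionBySet_iff _ _).2 fun a =>
          congrArg Prod.snd ((Submodule.mem_torsionBySet_iff _ _).1 x.2 a)⟩)
      invFun := fun y => ⟨(y.1.1, y.2.1), (Submodule.mem_torsionBySet_iff _ _).2 fun a =>
        Prod.ext ((Submodule.mem_torsionBySet_iff _ _).1 y.1.2 a)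
          ((Submodule.mem_torsionBySet_iff _ _).1 y.2.2 a)⟩
      map_add' := fun _ _ => rfl
      map_smul' := fun _ _ => rfl
      left_inv := fun _ => rfl
      right_inv := fun _ => rfl }

omit [Module k M] [IsScalarTower k A M] in
theorem soc_pi (I : Set A) (n : ℕ) : length A (Submodule.torsionBySet A (Fin n → M) I) =
    n * length A (Submodule.torsionBySet A M I) := by
  have e : Submodule.torsionBySet A (Fin n → M) I ≃ₗ[A]
      (Fin n → Submodule.torsionBySet A M I) :=
    { toFun := fun x i => ⟨x.1 i, (Submodule.mem_torsionBySet_iff _ _).2 fun a =>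
          congrFun ((Submodule.mem_torsionBySet_iff _ _).1 x.2 a) i⟩
      invFun := fun y => ⟨fun i => (y i).1, (Submodule.mem_torsionBySet_iff _ _).2 fun a =>
        funext fun i => (Submodule.mem_torsionBySet_iff _ _).1 (y i).2 a⟩
      map_add' := fun _ _ => rfl
      map_smul' := fun _ _ => rfl
      left_inv := fun _ => rfl
      right_inv := fun _ => rfl }
  rw [e.length_eq, length_pi_of_fintype]
  simp

theorem der_ne_top [Module.Finite k A] [Module.Finite k M] :
    length A (Derivation k A M) ≠ ⊤ := by
  let j : Derivation k A M →ₗ[k] A →ₗ[k] M :=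
    { toFun := fun D => D.toLinearMap
      map_add' := fun _ _ => rfl
      map_smul' := fun _ _ => rfl }
  have h1 : Module.Finite k (Derivation k A M) :=
    Module.Finite.of_injective j fun _ _ h => Derivation.ext fun a => LinearMap.congr_fun h a
  have h2 : IsArtinian A (Derivation k A M) := isArtinian_of_tower k inferInstance
  have h3 : IsNoetherian A (Derivation k A M) := isNoetherian_of_tower k inferInstance
  exact length_ne_top

/-- In a truncated polynomial ring two elements of square zero have product zero. -/
theorem trunc_mul (n : ℕ) (a b : Polynomial k ⧸ Ideal.span {(Polynomial.X : Polynomial k) ^ n})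
    (ha : a ^ 2 = 0) (hb : b ^ 2 = 0) : a * b = 0 := by
  obtain ⟨f, rfl⟩ := Ideal.Quotient.mk_surjective a
  obtain ⟨g, rfl⟩ := Ideal.Quotient.mk_surjective b
  rw [← map_pow, Ideal.Quotient.eq_zero_iff_mem, Ideal.mem_span_singleton] at ha hb
  rw [← map_mul, Ideal.Quotient.eq_zero_iff_mem, Ideal.mem_span_singleton,
    ← IsIntegrallyClosed.pow_dvd_pow_iff two_ne_zero, mul_pow, sq]
  exact mul_dvd_mul ha hb

end Pool.Agent.MP_72b677_al.H37
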